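import Mathlib

set_option autoImplicit false

namespace Pool.Agent.H439R2

open Finset

theorem factor_le (s : ℝ) (hs : 1 ≤ s) (j : ℕ) (hj : 2 ≤ j) (L : ℕ) :
    ∑ a ∈ range L, ((j : ℝ) ^ (-s)) ^ a ≤ Real.exp (2 * (j : ℝ) ^ (-s)) := by
  set t : ℝ := (j : ℝ) ^ (-s) with ht
  have hj' : (2 : ℝ) ≤ j := by exact_mod_cast hj
  have ht0 : 0 < t := by positivity
  have ht1 : t ≤ 1 / 2 := by
    have h1 : t ≤ (j : ℝ) ^ (-1 : ℝ) := by
      apply Real.rpow_le_rpow_of_exponent_le (by linarith) (by linarith)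
    rw [Real.rpow_neg_one] at h1
    have h2 : (j : ℝ)⁻¹ ≤ 1 / 2 := by
      rw [inv_le_comm₀ (by linarith) (by norm_num)]
      linarith
    linarith
  have hgeo : ∑ a ∈ range L, t ^ a ≤ (1 - t)⁻¹ := by
    have := Summable.sum_le_tsum (range L) (fun i _ => by positivity)
      (summable_geometric_of_lt_one ht0.le (by linarith : t < 1))
    rwa [tsum_geometric_of_lt_one ht0.le (by linarith)] at this
  refine hgeo.trans ?_
  have h3 : (1 - t)⁻¹ ≤ 1 + 2 * t := by
    rw [inv_le_comm₀ (by linarith) (by linarith), inv_le_iff_one_le_mul₀ (by linarith)]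
    nlinarith
  have h4 := Real.add_one_le_exp (2 * t)
  linarith

theorem rankin (s : ℝ) (hs : 1 < s) : ∃ B : ℝ, 0 ≤ B ∧ ∀ A : Finset (Multiset ℕ),
    (∀ M ∈ A, ∀ j ∈ M, 2 ≤ j) → ∑ M ∈ A, ((M.prod : ℕ) : ℝ) ^ (-s) ≤ B := by
  classical
  have hsum : Summable (fun j : ℕ => (j : ℝ) ^ (-s)) :=
    Real.summable_nat_rpow.2 (by linarith)
  refine ⟨Real.exp (2 * ∑' j : ℕ, (j : ℝ) ^ (-s)), (Real.exp_pos _).le, fun A hA => ?_⟩
  set U : Multiset ℕ := A.sup id with hU
  set J : Finset ℕ := U.toFinset with hJ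
  have hle : ∀ M ∈ A, M ≤ U := fun M hM => Finset.le_sup (f := id) hM
  have hU2 : ∀ j ∈ J, 2 ≤ j := by
    intro j hj
    rw [hJ, Multiset.mem_toFinset, hU] at hj
    obtain ⟨M, hM, hjM⟩ := (Multiset.mem_sup).1 hj
    exact hA M hM j hjM
  have hsub : ∀ M ∈ A, M.toFinset ⊆ J := by
    intro M hM
    exact Multiset.toFinset_subset.2 (Multiset.subset_of_le (hle M hM))
  have key : ∏ j ∈ J, ∑ a ∈ range (U.count j + 1), ((j : ℝ) ^ (-s)) ^ a =
      ∑ p ∈ J.pi (fun j => range (U.count j + 1)), ∏ x ∈ J.attach, ((x.1 : ℝ) ^ (-s)) ^ (p x.1 x.2) :=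
    Finset.prod_sum J (fun j => range (U.count j + 1)) (fun j a => ((j : ℝ) ^ (-s)) ^ a)
  have hval : ∀ M ∈ A, ((M.prod : ℕ) : ℝ) ^ (-s) =
      ∏ x ∈ J.attach, ((x.1 : ℝ) ^ (-s)) ^ (M.count x.1) := by
    intro M hM
    rw [Finset.prod_multiset_count_of_subset M J (hsub M hM)]
    rw [Finset.prod_attach J (fun x => ((x : ℝ) ^ (-s)) ^ (M.count x))]
    push_cast
    rw [← Real.finsetProd_rpow J (fun m => ((m : ℝ)) ^ (M.count m)) (fun i _ => by positivity)]
    apply Finset.prod_congr rfl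
    intro j hj
    rw [← Real.rpow_natCast, ← Real.rpow_natCast, ← Real.rpow_mul (by positivity),
      ← Real.rpow_mul (by positivity), mul_comm]
  calc ∑ M ∈ A, ((M.prod : ℕ) : ℝ) ^ (-s)
      = ∑ M ∈ A, ∏ x ∈ J.attach, ((x.1 : ℝ) ^ (-s)) ^ (M.count x.1) :=
        Finset.sum_congr rfl hval
    _ = ∑ p ∈ A.image (fun M => (fun (j : ℕ) (_ : j ∈ J) => M.count j)),
          ∏ x ∈ J.attach, ((x.1 : ℝ) ^ (-s)) ^ (p x.1 x.2) := by
        rw [Finset.sum_image]
        intro M hM M' hM' h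
        ext j
        by_cases hj : j ∈ J
        · exact congrFun (congrFun h j) hj
        · rw [Multiset.count_eq_zero_of_notMem, Multiset.count_eq_zero_of_notMem]
          · intro h'
            exact hj (hsub M' hM' (Multiset.mem_toFinset.2 h'))
          · intro h'
            exact hj (hsub M hM (Multiset.mem_toFinset.2 h'))
    _ ≤ ∑ p ∈ J.pi (fun j => range (U.count j + 1)), ∏ x ∈ J.attach, ((x.1 : ℝ) ^ (-s)) ^ (p x.1 x.2) := by
        apply Finset.sum_le_sum_of_subset_of_nonneg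
        · intro p hp
          obtain ⟨M, hM, rfl⟩ := Finset.mem_image.1 hp
          rw [Finset.mem_pi]
          intro j hj
          rw [Finset.mem_range, Nat.lt_succ_iff]
          exact Multiset.count_le_of_le j (hle M hM)
        · intro p _ _
          exact Finset.prod_nonneg (fun x _ => by positivity)
    _ = ∏ j ∈ J, ∑ a ∈ range (U.count j + 1), ((j : ℝ) ^ (-s)) ^ a := key.symm
    _ ≤ ∏ j ∈ J, Real.exp (2 * (j : ℝ) ^ (-s)) := by
        apply Finset.prod_le_prod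
        · intro j _
          exact Finset.sum_nonneg (fun a _ => by positivity)
        · intro j hj
          exact factor_le s hs.le j (hU2 j hj) _
    _ = Real.exp (2 * ∑ j ∈ J, (j : ℝ) ^ (-s)) := by
        rw [← Real.exp_sum, Finset.mul_sum]
    _ ≤ Real.exp (2 * ∑' j : ℕ, (j : ℝ) ^ (-s)) := by
        apply Real.exp_le_exp.2
        have := hsum.sum_le_tsum J (fun i _ => by positivity)
        linarith

end Pool.Agent.H439R2
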