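import Mathlib

set_option autoImplicit false

namespace Pool.Agent.H439R2

open Finset

/-- The numerical invariant of a multiset used to bound the number of moduli. -/
def W (M : Multiset ℕ) : ℕ := M.sum - Multiset.card M

theorem card_le_sum (M : Multiset ℕ) (h : ∀ j ∈ M, 2 ≤ j) : Multiset.card M ≤ M.sum := by
  induction M using Multiset.induction with
  | empty => simp
  | cons a M ih =>
    have h1 := ih (fun j hj => h j (Multiset.mem_cons_of_mem hj))
    have h2 := h a (Multiset.mem_cons_self a M)
    rw [Multiset.card_cons, Multiset.sum_cons]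
    omega

theorem sum_le_card_add_prod (M : Multiset ℕ) (h : ∀ j ∈ M, 2 ≤ j) :
    M.sum + 1 ≤ Multiset.card M + M.prod := by
  induction M using Multiset.induction with
  | empty => simp
  | cons a M ih =>
    have h1 := ih (fun j hj => h j (Multiset.mem_cons_of_mem hj))
    have h2 := h a (Multiset.mem_cons_self a M)
    have h3 : 1 ≤ M.prod := by
      rw [Nat.one_le_iff_ne_zero]
      apply Multiset.prod_ne_zero
      intro h0
      have := h 0 (Multiset.mem_cons_of_mem h0)
      omega
    rw [Multiset.card_cons, Multiset.sum_cons, Multiset.prod_cons]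
    nlinarith

theorem two_pow_card_le (M : Multiset ℕ) (h : ∀ j ∈ M, 2 ≤ j) :
    2 ^ (Multiset.card M) ≤ M.prod := by
  induction M using Multiset.induction with
  | empty => simp
  | cons a M ih =>
    have h1 := ih (fun j hj => h j (Multiset.mem_cons_of_mem hj))
    have h2 := h a (Multiset.mem_cons_self a M)
    rw [Multiset.card_cons, Multiset.prod_cons, pow_succ']
    exact Nat.mul_le_mul h2 h1

theorem sum_le_card_mul (M : Multiset ℕ) (m : ℕ) (h : ∀ j ∈ M, j ≤ m) :
    M.sum ≤ Multiset.card M * m := by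
  have := Multiset.sum_le_card_nsmul M m h
  simpa using this

theorem split_ones (V : Multiset ℕ) (h : ∀ j ∈ V, 0 < j) :
    V = V.filter (fun j => 2 ≤ j) + Multiset.replicate (Multiset.card V - Multiset.card (V.filter (fun j => 2 ≤ j))) 1 := by
  have h1 : V.filter (fun j => 2 ≤ j) + V.filter (fun j => ¬ 2 ≤ j) = V := Multiset.filter_add_not _ _
  have h2 : V.filter (fun j => ¬ 2 ≤ j) = Multiset.replicate (Multiset.card (V.filter (fun j => ¬ 2 ≤ j))) 1 := by
    rw [Multiset.eq_replicate]
    refine ⟨rfl, fun b hb => ?_⟩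
    rw [Multiset.mem_filter] at hb
    have := h b hb.1
    omega
  have h3 : Multiset.card (V.filter (fun j => ¬ 2 ≤ j)) =
      Multiset.card V - Multiset.card (V.filter (fun j => 2 ≤ j)) := by
    have := congrArg Multiset.card h1
    rw [Multiset.card_add] at this
    omega
  rw [h3] at h2
  rw [← h2]
  exact h1.symm

theorem structure_lemma (p : ℕ) (hp : p.Prime) (V : Multiset ℕ) (hcard : Multiset.card V = p)
    (hpos : ∀ v ∈ V, 0 < v) (h : V.prod = p * V.sum) :
    ∃ (M : Multiset ℕ) (m : ℕ), (∀ j ∈ M, 2 ≤ j) ∧ Multiset.card M ≤ p - 1 ∧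
      V = m ::ₘ (M + Multiset.replicate (p - 1 - Multiset.card M) 1) ∧
      p < M.prod ∧ m * (M.prod - p) = p * (M.sum + (p - 1 - Multiset.card M)) ∧
      M.prod ≤ p * (Multiset.card M + 2) := by
  have hp2 := hp.two_le
  obtain ⟨v, hv, hpv⟩ : ∃ v ∈ V, p ∣ v := by
    have h1 : p ∣ V.prod := by rw [h]; exact dvd_mul_right _ _
    exact (hp.prime).exists_mem_multiset_dvd h1
  obtain ⟨m, hm, hmax⟩ := V.toFinset.exists_max_image id ⟨v, Multiset.mem_toFinset.2 hv⟩
  rw [Multiset.mem_toFinset] at hm
  have hmax' : ∀ w ∈ V, w ≤ m := fun w hw => hmax w (Multiset.mem_toFinset.2 hw)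
  have hpm : p ≤ m := (Nat.le_of_dvd (hpos v hv) hpv).trans (hmax' v hv)
  set V' := V.erase m with hV'
  have hVc : V = m ::ₘ V' := (Multiset.cons_erase hm).symm
  have hcard' : Multiset.card V' = p - 1 := by
    have := congrArg Multiset.card hVc
    rw [Multiset.card_cons, hcard] at this
    omega
  have hpos' : ∀ w ∈ V', 0 < w := fun w hw => hpos w (Multiset.mem_of_mem_erase hw)
  have hle' : ∀ w ∈ V', w ≤ m := fun w hw => hmax' w (Multiset.mem_of_mem_erase hw)
  set M := V'.filter (fun j => 2 ≤ j) with hM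
  have hM2 : ∀ j ∈ M, 2 ≤ j := fun j hj => (Multiset.mem_filter.1 hj).2
  have hcM : Multiset.card M ≤ p - 1 := by
    rw [← hcard']
    exact Multiset.card_le_card (Multiset.filter_le _ _)
  have hsplit : V' = M + Multiset.replicate (p - 1 - Multiset.card M) 1 := by
    have := split_ones V' hpos'
    rwa [hcard'] at this
  have hprod : V'.prod = M.prod := by
    rw [hsplit, Multiset.prod_add, Multiset.prod_replicate, one_pow, mul_one]
  have hsum : V'.sum = M.sum + (p - 1 - Multiset.card M) := by
    rw [hsplit, Multiset.sum_add, Multiset.sum_replicate]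
    simp
  have heq : m * M.prod = p * (m + (M.sum + (p - 1 - Multiset.card M))) := by
    have h1 := h
    rw [hVc, Multiset.prod_cons, Multiset.sum_cons, hprod, hsum] at h1
    exact h1
  have hcs := card_le_sum M hM2
  have hSpos : 0 < M.sum + (p - 1 - Multiset.card M) := by omega
  have hlt : p < M.prod := by
    by_contra hcon
    push Not at hcon
    have h2 : m * M.prod ≤ m * p := Nat.mul_le_mul_left m hcon
    rw [heq, mul_add] at h2
    have h3 : 0 < p * (M.sum + (p - 1 - Multiset.card M)) := by positivity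
    nlinarith
  refine ⟨M, m, hM2, hcM, ?_, hlt, ?_, ?_⟩
  · rw [← hsplit]; exact hVc
  · rw [Nat.mul_sub, heq, mul_add, mul_comm m p]
    omega
  · have h4 : M.sum ≤ Multiset.card M * m := sum_le_card_mul M m (fun j hj =>
      hle' j (Multiset.mem_of_le (Multiset.filter_le _ _) hj))
    have h5 : M.sum + (p - 1 - Multiset.card M) ≤ (Multiset.card M + 1) * m := by
      have : p - 1 - Multiset.card M ≤ m := by omega
      nlinarith
    have h6 : m * M.prod ≤ m * (p * (Multiset.card M + 2)) := by
      rw [heq]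
      calc p * (m + (M.sum + (p - 1 - Multiset.card M))) ≤ p * (m + (Multiset.card M + 1) * m) :=
            Nat.mul_le_mul_left p (by omega)
        _ = m * (p * (Multiset.card M + 2)) := by ring
    exact Nat.le_of_mul_le_mul_left h6 (by omega)

/-- The difference `δ = M.prod - p` divides the number attached to `M`. -/
theorem dvd_lemma (p : ℕ) (M : Multiset ℕ) (m : ℕ) (hM2 : ∀ j ∈ M, 2 ≤ j) (hp : 1 ≤ p)
    (hcM : Multiset.card M ≤ p - 1) (hlt : p < M.prod)
    (h : m * (M.prod - p) = p * (M.sum + (p - 1 - Multiset.card M))) :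
    (M.prod - p) ∣ M.prod * (M.prod - 1 + W M) := by
  have hcs := card_le_sum M hM2
  unfold W
  generalize M.prod = P at *
  generalize M.sum = S at *
  generalize Multiset.card M = k at *
  obtain ⟨d, rfl⟩ : ∃ d, P = p + d := ⟨P - p, by omega⟩
  obtain ⟨w, rfl⟩ : ∃ w, S = k + w := ⟨S - k, by omega⟩
  obtain ⟨r, rfl⟩ : ∃ r, p = r + 1 + k := ⟨p - 1 - k, by omega⟩
  have e1 : (r + 1 + k + d) - (r + 1 + k) = d := by omega
  have e2 : r + 1 + k + d - 1 = r + k + d := by omega
  have e3 : k + w - k = w := by omega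
  have e4 : r + 1 + k - 1 - k = r := by omega
  rw [e1, e4] at h
  rw [e1, e2, e3]
  refine ⟨m + (r + 1 + k) + (r + k + w) + d, ?_⟩
  zify at h ⊢
  linear_combination (-1 : ℤ) * h

end Pool.Agent.H439R2
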