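import Mathlib
import Pool.Agent.Helper919.DivBound
import Pool.Agent.H439R2.Rankin
import Pool.Agent.H439R2.Struct

set_option autoImplicit false

namespace Pool.Agent.H439R2

open Finset

/-- Multisets encoding the solutions. -/
def Vset (n : ℕ) : Set (Multiset ℕ) :=
  {V | Multiset.card V = n ∧ (∀ v ∈ V, 0 < v) ∧ V.prod = n * V.sum}

theorem toMultiset_inj (n : ℕ) (x y : Fin n → ℕ) (hx : Monotone x) (hy : Monotone y)
    (h : (Finset.univ : Finset (Fin n)).val.map x = (Finset.univ : Finset (Fin n)).val.map y) :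
    x = y := by
  rw [Fin.univ_val_map, Fin.univ_val_map, Multiset.coe_eq_coe] at h
  have h1 : (List.ofFn x).SortedLE := List.sortedLE_ofFn_iff.2 hx
  have h2 : (List.ofFn y).SortedLE := List.sortedLE_ofFn_iff.2 hy
  have h3 : List.ofFn x = List.ofFn y := h.eq_of_pairwise' h1.pairwise h2.pairwise
  exact List.ofFn_injective h3

theorem exists_finset (n : ℕ)
    (h : 0 < Set.ncard {x : Fin n → ℕ | Monotone x ∧ (∀ i, 0 < x i) ∧
            (∏ i, x i) = n * ∑ i, x i}) :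
    ∃ F : Finset (Multiset ℕ), (∀ V ∈ F, V ∈ Vset n) ∧
      F.card = Set.ncard {x : Fin n → ℕ | Monotone x ∧ (∀ i, 0 < x i) ∧
            (∏ i, x i) = n * ∑ i, x i} := by
  classical
  have hfin := Set.finite_of_ncard_pos h
  refine ⟨hfin.toFinset.image (fun x => (Finset.univ : Finset (Fin n)).val.map x), ?_, ?_⟩
  · intro V hV
    obtain ⟨x, hx, rfl⟩ := Finset.mem_image.1 hV
    rw [Set.Finite.mem_toFinset] at hx
    obtain ⟨hm, hpos, hprod⟩ := hx
    refine ⟨by simp, ?_, ?_⟩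
    · intro v hv
      rw [Multiset.mem_map] at hv
      obtain ⟨i, _, rfl⟩ := hv
      exact hpos i
    · exact hprod
  · rw [Finset.card_image_of_injOn, Set.ncard_eq_toFinset_card _ hfin]
    intro x hx y hy hxy
    rw [Set.Finite.coe_toFinset] at hx hy
    exact toMultiset_inj n x y hx.1 hy.1 hxy

theorem card_bound (η : ℝ) (hη : 0 < η) : ∃ K : ℝ, 0 < K ∧ ∀ k : ℕ,
    ((k : ℝ) + 2) ^ 2 ≤ K * ((2 : ℝ) ^ k) ^ η := by
  have hr : 1 < (2 : ℝ) ^ η := Real.one_lt_rpow (by norm_num) hη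
  obtain ⟨C, hC⟩ := (tendsto_pow_const_div_const_pow_of_one_lt 2 hr).bddAbove_range
  refine ⟨max C 1 * ((2 : ℝ) ^ η) ^ 2, by positivity, fun k => ?_⟩
  have h1 : (((k + 2 : ℕ) : ℝ)) ^ 2 / ((2 : ℝ) ^ η) ^ (k + 2) ≤ C := hC ⟨k + 2, rfl⟩
  rw [div_le_iff₀ (by positivity)] at h1
  have h2 : ((2 : ℝ) ^ k) ^ η = ((2 : ℝ) ^ η) ^ k := by
    rw [← Real.rpow_natCast, ← Real.rpow_natCast, ← Real.rpow_mul (by norm_num),
      ← Real.rpow_mul (by norm_num), mul_comm]
  push_cast at h1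
  calc ((k : ℝ) + 2) ^ 2 ≤ C * ((2 : ℝ) ^ η) ^ (k + 2) := h1
    _ ≤ max C 1 * ((2 : ℝ) ^ η) ^ (k + 2) := by
        apply mul_le_mul_of_nonneg_right (le_max_left _ _) (by positivity)
    _ = max C 1 * ((2 : ℝ) ^ η) ^ 2 * ((2 : ℝ) ^ k) ^ η := by
        rw [h2, pow_add]; ring

theorem div_bound (η : ℝ) (hη : 0 < η) : ∃ K : ℝ, 0 < K ∧ ∀ P D : ℕ, 0 < P → D ≠ 0 →
    D ≤ 2 * P ^ 2 → ((D.divisors.card : ℕ) : ℝ) ≤ K * (P : ℝ) ^ η := by
  obtain ⟨N, hN⟩ := exists_nat_gt (2 / η)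
  have hNpos : 0 < (N : ℝ) := lt_trans (by positivity) hN
  have hN0 : N ≠ 0 := by
    rintro rfl
    simp at hNpos
  obtain ⟨C, hC, hdiv⟩ := Pool.Agent.Helper919.card_divisors_pow_le N
  refine ⟨(2 * C : ℝ) ^ ((N : ℝ)⁻¹), by positivity, fun P D hP hD hle => ?_⟩
  have h1 : ((D.divisors.card : ℕ) : ℝ) ^ N ≤ 2 * C * (P : ℝ) ^ 2 := by
    have h2 := (hdiv D hD).trans (Nat.mul_le_mul_left C hle)
    have h3 : ((D.divisors.card ^ N : ℕ) : ℝ) ≤ ((C * (2 * P ^ 2) : ℕ) : ℝ) := by exact_mod_cast h2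
    push_cast at h3
    linarith
  calc ((D.divisors.card : ℕ) : ℝ) = (((D.divisors.card : ℕ) : ℝ) ^ N) ^ ((N : ℝ)⁻¹) :=
        (Real.pow_rpow_inv_natCast (Nat.cast_nonneg _) hN0).symm
    _ ≤ (2 * C * (P : ℝ) ^ 2) ^ ((N : ℝ)⁻¹) := by
        apply Real.rpow_le_rpow (by positivity) h1 (by positivity)
    _ = (2 * C : ℝ) ^ ((N : ℝ)⁻¹) * ((P : ℝ) ^ 2) ^ ((N : ℝ)⁻¹) := by
        rw [Real.mul_rpow (by positivity) (by positivity)]
    _ ≤ (2 * C : ℝ) ^ ((N : ℝ)⁻¹) * (P : ℝ) ^ η := by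
        apply mul_le_mul_of_nonneg_left _ (by positivity)
        rw [← Real.rpow_natCast, ← Real.rpow_mul (by positivity)]
        apply Real.rpow_le_rpow_of_exponent_le
        · exact_mod_cast hP
        · push_cast
          rw [div_lt_iff₀ hη] at hN
          rw [← div_eq_mul_inv, div_le_iff₀ hNpos]
          linarith

theorem main_bound (ε : ℝ) (hε : 0 < ε) (hε1 : ε ≤ 1) : ∃ C : ℝ, ∀ (T : Finset ℕ)
    (F : ℕ → Finset (Multiset ℕ)), (∀ p ∈ T, p.Prime) → (∀ p ∈ T, ∀ V ∈ F p, V ∈ Vset p) →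
    ∑ p ∈ T, ((F p).card : ℝ) * (p : ℝ) ^ (-(1 + ε)) ≤ C := by
  classical
  obtain ⟨K1, hK1, hcard⟩ := card_bound (ε / 4) (by positivity)
  obtain ⟨K2, hK2, hdiv⟩ := div_bound (ε / 4) (by positivity)
  obtain ⟨B, hB, hrankin⟩ := rankin (1 + ε / 2) (by linarith)
  refine ⟨K1 * K2 * B, fun T F hT hF => ?_⟩
  set I : Finset (Σ _ : ℕ, Multiset ℕ) := T.sigma F with hI
  have hex : ∀ q : (Σ _ : ℕ, Multiset ℕ), ∃ (M : Multiset ℕ) (m : ℕ), q ∈ I →
      ((∀ j ∈ M, 2 ≤ j) ∧ Multiset.card M ≤ q.1 - 1 ∧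
      q.2 = m ::ₘ (M + Multiset.replicate (q.1 - 1 - Multiset.card M) 1) ∧
      q.1 < M.prod ∧ m * (M.prod - q.1) = q.1 * (M.sum + (q.1 - 1 - Multiset.card M)) ∧
      M.prod ≤ q.1 * (Multiset.card M + 2)) := by
    intro q
    by_cases hq : q ∈ I
    · rw [hI, Finset.mem_sigma] at hq
      obtain ⟨h1, h2, h3⟩ := hF q.1 hq.1 q.2 hq.2
      obtain ⟨M, m, h⟩ := structure_lemma q.1 (hT q.1 hq.1) q.2 h1 h2 h3
      exact ⟨M, m, fun _ => h⟩
    · exact ⟨0, 0, fun h => absurd h hq⟩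
  choose M m hMm using hex
  have hpI : ∀ q ∈ I, q.1.Prime := by
    intro q hq
    rw [hI, Finset.mem_sigma] at hq
    exact hT q.1 hq.1
  -- the encoding
  set Φ : (Σ _ : ℕ, Multiset ℕ) → (Σ _ : Multiset ℕ, ℕ) := fun q => ⟨M q, (M q).prod - q.1⟩ with hΦ
  have hinj : Set.InjOn Φ I := by
    rintro ⟨p, V⟩ hq ⟨p', V'⟩ hq' h
    have hq0 := hMm _ hq
    have hq0' := hMm _ hq'
    have hM : M ⟨p, V⟩ = M ⟨p', V'⟩ := by
      have := congrArg Sigma.fst h
      exact this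
    have hδ : (M ⟨p, V⟩).prod - p = (M ⟨p', V'⟩).prod - p' := by
      have := (Sigma.mk.inj_iff.1 h).2
      exact eq_of_heq this
    obtain ⟨_, _, hV, hlt, hm, _⟩ := hq0
    obtain ⟨_, _, hV', hlt', hm', _⟩ := hq0'
    simp only at hV hlt hm hV' hlt' hm'
    rw [← hM] at hV' hlt' hm' hδ
    have hpp : p = p' := by omega
    subst hpp
    have hmm : m ⟨p, V⟩ = m ⟨p, V'⟩ := by
      rw [← hm'] at hm
      exact Nat.eq_of_mul_eq_mul_right (by omega) hm
    rw [hV, hV', hmm]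
  set A : Finset (Multiset ℕ) := I.image M with hA
  set D : Multiset ℕ → ℕ := fun M => M.prod * (M.prod - 1 + W M) with hD
  have himg : I.image Φ ⊆ A.sigma (fun M => (D M).divisors) := by
    intro r hr
    obtain ⟨q, hq, rfl⟩ := Finset.mem_image.1 hr
    obtain ⟨h2, hc, hV, hlt, hm, hle⟩ := hMm q hq
    have hp1 := (hpI q hq).one_lt
    rw [Finset.mem_sigma]
    refine ⟨Finset.mem_image_of_mem M hq, ?_⟩
    rw [Nat.mem_divisors]
    refine ⟨dvd_lemma q.1 (M q) (m q) h2 hp1.le hc hlt hm, ?_⟩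
    change (M q).prod * ((M q).prod - 1 + W (M q)) ≠ 0
    apply Nat.mul_ne_zero (by omega) (by omega)
  set g : Multiset ℕ → ℝ := fun M => K1 * ((M.prod : ℕ) : ℝ) ^ (-(1 + ε) + ε / 4) with hg
  have hg0 : ∀ M, 0 ≤ g M := fun M => by simp only [hg]; positivity
  have hterm : ∀ q ∈ I, (q.1 : ℝ) ^ (-(1 + ε)) ≤ g (M q) := by
    intro q hq
    obtain ⟨h2, hc, hV, hlt, hm, hle⟩ := hMm q hq
    have hp1 := (hpI q hq).one_lt
    have hppos : (0 : ℝ) < q.1 := by exact_mod_cast (by omega : 0 < q.1)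
    have hPpos : (0 : ℝ) < ((M q).prod : ℕ) := by exact_mod_cast (by omega : 0 < (M q).prod)
    set k := Multiset.card (M q) with hk
    have h2k : (2 : ℝ) ^ k ≤ ((M q).prod : ℕ) := by exact_mod_cast two_pow_card_le (M q) h2
    have h5 : (((M q).prod : ℕ) : ℝ) ^ (1 + ε) ≤ (q.1 : ℝ) ^ (1 + ε) * (K1 * (((M q).prod : ℕ) : ℝ) ^ (ε / 4)) := by
      calc (((M q).prod : ℕ) : ℝ) ^ (1 + ε) ≤ ((q.1 : ℝ) * ((k : ℝ) + 2)) ^ (1 + ε) := by
            apply Real.rpow_le_rpow hPpos.le _ (by linarith)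
            exact_mod_cast hle
        _ = (q.1 : ℝ) ^ (1 + ε) * ((k : ℝ) + 2) ^ (1 + ε) := by
            rw [Real.mul_rpow hppos.le (by positivity)]
        _ ≤ (q.1 : ℝ) ^ (1 + ε) * ((k : ℝ) + 2) ^ (2 : ℝ) := by
            apply mul_le_mul_of_nonneg_left _ (by positivity)
            apply Real.rpow_le_rpow_of_exponent_le _ (by linarith)
            have : (0 : ℝ) ≤ k := by positivity
            linarith
        _ = (q.1 : ℝ) ^ (1 + ε) * ((k : ℝ) + 2) ^ 2 := by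
            rw [Real.rpow_two]
        _ ≤ (q.1 : ℝ) ^ (1 + ε) * (K1 * ((2 : ℝ) ^ k) ^ (ε / 4)) := by
            apply mul_le_mul_of_nonneg_left (hcard k) (by positivity)
        _ ≤ (q.1 : ℝ) ^ (1 + ε) * (K1 * (((M q).prod : ℕ) : ℝ) ^ (ε / 4)) := by
            apply mul_le_mul_of_nonneg_left _ (by positivity)
            apply mul_le_mul_of_nonneg_left _ hK1.le
            apply Real.rpow_le_rpow (by positivity) h2k (by positivity)
    simp only [hg]
    rw [Real.rpow_add hPpos, Real.rpow_neg hppos.le, Real.rpow_neg hPpos.le]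
    have hP1 : 0 < (((M q).prod : ℕ) : ℝ) ^ (1 + ε) := by positivity
    have hp1' : 0 < (q.1 : ℝ) ^ (1 + ε) := by positivity
    rw [inv_le_iff_one_le_mul₀ hp1']
    have h6 : K1 * (((((M q).prod : ℕ) : ℝ) ^ (1 + ε))⁻¹ * (((M q).prod : ℕ) : ℝ) ^ (ε / 4)) * (q.1 : ℝ) ^ (1 + ε)
      = ((q.1 : ℝ) ^ (1 + ε) * (K1 * (((M q).prod : ℕ) : ℝ) ^ (ε / 4))) / (((M q).prod : ℕ) : ℝ) ^ (1 + ε) := by
      rw [div_eq_mul_inv]; ring
    rw [h6, one_le_div hP1]
    exact h5
  have hA2 : ∀ M' ∈ A, ∀ j ∈ M', 2 ≤ j := by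
    intro M' hM'
    obtain ⟨q, hq, rfl⟩ := Finset.mem_image.1 hM'
    exact (hMm q hq).1
  have hA3 : ∀ M' ∈ A, 2 ≤ M'.prod := by
    intro M' hM'
    obtain ⟨q, hq, rfl⟩ := Finset.mem_image.1 hM'
    have := (hMm q hq).2.2.2.1
    have := (hpI q hq).one_lt
    omega
  calc ∑ p ∈ T, ((F p).card : ℝ) * (p : ℝ) ^ (-(1 + ε))
      = ∑ q ∈ I, (q.1 : ℝ) ^ (-(1 + ε)) := by
        rw [hI, Finset.sum_sigma]
        apply Finset.sum_congr rfl
        intro p _
        simp [Finset.sum_const, nsmul_eq_mul]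
    _ ≤ ∑ q ∈ I, g (M q) := Finset.sum_le_sum hterm
    _ = ∑ q ∈ I, g (Φ q).1 := rfl
    _ = ∑ r ∈ I.image Φ, g r.1 := by
        rw [Finset.sum_image hinj]
    _ ≤ ∑ r ∈ A.sigma (fun M => (D M).divisors), g r.1 :=
        Finset.sum_le_sum_of_subset_of_nonneg himg (fun r _ _ => hg0 r.1)
    _ = ∑ M' ∈ A, ((D M').divisors.card : ℝ) * g M' := by
        rw [Finset.sum_sigma]
        apply Finset.sum_congr rfl
        intro M' _
        simp [Finset.sum_const, nsmul_eq_mul]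
    _ ≤ ∑ M' ∈ A, (K1 * K2) * ((M'.prod : ℕ) : ℝ) ^ (-(1 + ε / 2)) := by
        apply Finset.sum_le_sum
        intro M' hM'
        have h2 := hA2 M' hM'
        have h3 := hA3 M' hM'
        have hPpos : (0 : ℝ) < (M'.prod : ℕ) := by exact_mod_cast (by omega : 0 < M'.prod)
        have hDne : D M' ≠ 0 := by
          simp only [hD]
          apply Nat.mul_ne_zero (by omega) (by omega)
        have hDle : D M' ≤ 2 * M'.prod ^ 2 := by
          simp only [hD]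
          have hW : W M' ≤ M'.prod := by
            have := sum_le_card_add_prod M' h2
            unfold W
            omega
          have : M'.prod - 1 + W M' ≤ 2 * M'.prod := by omega
          calc M'.prod * (M'.prod - 1 + W M') ≤ M'.prod * (2 * M'.prod) := Nat.mul_le_mul_left _ this
            _ = 2 * M'.prod ^ 2 := by ring
        have h4 := hdiv M'.prod (D M') (by omega) hDne hDle
        calc ((D M').divisors.card : ℝ) * g M' ≤ (K2 * ((M'.prod : ℕ) : ℝ) ^ (ε / 4)) * g M' :=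
              mul_le_mul_of_nonneg_right h4 (hg0 M')
          _ = (K1 * K2) * (((M'.prod : ℕ) : ℝ) ^ (ε / 4) * ((M'.prod : ℕ) : ℝ) ^ (-(1 + ε) + ε / 4)) := by
              simp only [hg]; ring
          _ = (K1 * K2) * ((M'.prod : ℕ) : ℝ) ^ (-(1 + ε / 2)) := by
              rw [← Real.rpow_add hPpos]
              congr 2
              ring
    _ = (K1 * K2) * ∑ M' ∈ A, ((M'.prod : ℕ) : ℝ) ^ (-(1 + ε / 2)) := by
        rw [Finset.mul_sum]
    _ ≤ K1 * K2 * B := by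
        apply mul_le_mul_of_nonneg_left (hrankin A hA2) (by positivity)

theorem final :
    ¬ (∃ ε : ℝ, 0 < ε ∧ ∃ N : ℕ, ∀ n : ℕ, N ≤ n →
      (n : ℝ) ^ ε <
        ((Set.ncard {x : Fin n → ℕ | Monotone x ∧ (∀ i, 0 < x i) ∧
            (∏ i, x i) = n * ∑ i, x i} : ℕ) : ℝ)) := by
  classical
  rintro ⟨ε₀, hε₀, N, hN⟩
  set ε := min ε₀ 1 with hε'
  have hε : 0 < ε := lt_min hε₀ one_pos
  have hε1 : ε ≤ 1 := min_le_right _ _
  obtain ⟨C, hC⟩ := main_bound ε hε hε1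
  have hF : ∀ p : ℕ, ∃ F : Finset (Multiset ℕ), (p.Prime ∧ N ≤ p) →
      ((∀ V ∈ F, V ∈ Vset p) ∧ (p : ℝ) ^ ε ≤ F.card) := by
    intro p
    by_cases hp : p.Prime ∧ N ≤ p
    · have h1 := hN p hp.2
      have hp1 : (1 : ℝ) ≤ p := by exact_mod_cast hp.1.one_lt.le
      have h2 : (0 : ℝ) < (p : ℝ) ^ ε₀ := by positivity
      have h3 := h2.trans h1
      obtain ⟨F, hF1, hF2⟩ := exists_finset p (by exact_mod_cast h3)
      refine ⟨F, fun _ => ⟨hF1, ?_⟩⟩
      rw [hF2]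
      refine le_trans ?_ h1.le
      exact Real.rpow_le_rpow_of_exponent_le hp1 (min_le_left _ _)
    · exact ⟨∅, fun h => absurd h hp⟩
  choose F hF using hF
  apply not_summable_one_div_on_primes
  apply summable_of_sum_le (c := C + ∑ n ∈ range N, Set.indicator {p | p.Prime} (fun n : ℕ ↦ (1 : ℝ) / n) n)
  · intro n
    apply Set.indicator_nonneg
    intro x _
    positivity
  · intro u
    set f : ℕ → ℝ := Set.indicator {p | p.Prime} (fun n : ℕ ↦ (1 : ℝ) / n) with hf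
    have hf0 : ∀ n, 0 ≤ f n := by
      intro n
      apply Set.indicator_nonneg
      intro x _
      positivity
    set T : Finset ℕ := u.filter (fun p => p.Prime ∧ N ≤ p) with hT
    have h1 : ∑ n ∈ u, f n ≤ ∑ n ∈ T ∪ range N, f n := by
      have hsub : u.filter (fun n => n.Prime) ⊆ T ∪ range N := by
        intro n hn
        rw [Finset.mem_filter] at hn
        rw [Finset.mem_union, hT, Finset.mem_filter, Finset.mem_range]
        by_cases h : N ≤ n
        · exact Or.inl ⟨hn.1, hn.2, h⟩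
        · exact Or.inr (by omega)
      calc ∑ n ∈ u, f n = ∑ n ∈ u.filter (fun n => n.Prime), f n := by
            rw [Finset.sum_filter]
            apply Finset.sum_congr rfl
            intro n _
            by_cases h : n.Prime
            · rw [if_pos h]
            · rw [if_neg h, hf, Set.indicator_of_notMem]
              exact h
        _ ≤ _ := Finset.sum_le_sum_of_subset_of_nonneg hsub (fun n _ _ => hf0 n)
    have h2 : ∑ n ∈ T ∪ range N, f n ≤ ∑ n ∈ T, f n + ∑ n ∈ range N, f n := by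
      rw [← Finset.sum_union_inter]
      have : 0 ≤ ∑ i ∈ T ∩ range N, f i := Finset.sum_nonneg (fun i _ => hf0 i)
      linarith
    have h3 : ∑ n ∈ T, f n ≤ C := by
      refine le_trans ?_ (hC T F (fun p hp => (Finset.mem_filter.1 hp).2.1)
        (fun p hp => (hF p (Finset.mem_filter.1 hp).2).1))
      apply Finset.sum_le_sum
      intro p hp
      have hp' := (Finset.mem_filter.1 hp).2
      have hp0 : (0 : ℝ) < p := by exact_mod_cast hp'.1.pos
      rw [hf, Set.indicator_of_mem (show p ∈ {p : ℕ | p.Prime} from hp'.1)]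
      have h4 := (hF p hp').2
      calc (1 : ℝ) / p = (p : ℝ) ^ ε * (p : ℝ) ^ (-(1 + ε)) := by
            rw [← Real.rpow_add hp0]
            have : ε + -(1 + ε) = -1 := by ring
            rw [this, Real.rpow_neg_one, one_div]
        _ ≤ ((F p).card : ℝ) * (p : ℝ) ^ (-(1 + ε)) :=
            mul_le_mul_of_nonneg_right h4 (by positivity)
    linarith

end Pool.Agent.H439R2
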